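import Pool.Agent.K4H41.XKA
import Pool.Agent.K4H57.XKV

open Finset

namespace Pool.Agent.K4H58.XK

/-- the weight of an event that splits into a condition on the cut and a condition on the order -/
theorem W_splitC2 {N k : ℕ} (Y0 : Finset (Fin N)) (f : ℕ → ℕ)
    (P : Finset (Fin N) → Equiv.Perm (Fin N) → Prop) [∀ J σ, Decidable (P J σ)]
    (C : Finset (Fin N) → Prop) [DecidablePred C] (D : Equiv.Perm (Fin N) → Prop) [DecidablePred D]
    (h : ∀ J ∈ Js Y0, ∀ σ, P J σ ↔ C J ∧ D σ) :
    W k Y0 f P = (∑ J ∈ (Js Y0).filter C, k.choose J.card * f J.card) * (univ.filter D).card := by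
  unfold W
  rw [Finset.sum_filter, Finset.sum_mul]
  refine Finset.sum_congr rfl fun J hJ => ?_
  by_cases hC : C J
  · rw [if_pos hC, Finset.card_filter, Finset.mul_sum]
    refine Finset.sum_congr rfl fun σ _ => ?_
    by_cases hD : D σ
    · rw [if_pos ((h J hJ σ).2 ⟨hC, hD⟩), if_pos hD, mul_one]
    · rw [if_neg (fun hP => hD ((h J hJ σ).1 hP).2), if_neg hD, mul_zero]
  · rw [if_neg hC, zero_mul]
    refine Finset.sum_eq_zero fun σ _ => ?_
    rw [if_neg (fun hP => hC ((h J hJ σ).1 hP).1)]

/-- PIECE C2: the weight of an upper cherry -/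
theorem upper_cherry {N k m : ℕ} (hG : Good k) (Y0 A B B' : Finset (Fin N)) (hY : Y0.card = k)
    (hA : A.card = k) (hB : B.card = k) (hB' : B'.card = k) (hBB' : Disjoint B B') (hAB : Disjoint A B)
    (hAB' : Disjoint A B') (hA0 : (A ∩ Y0).Nonempty) (hB0 : (B ∩ Y0).Nonempty)
    (hB0' : (B' ∩ Y0).Nonempty) (hm : 3 ≤ m)
    (hs : m + (A ∩ Y0).card + (B ∩ Y0).card + (B' ∩ Y0).card ≤ k + 3) :
    m * W k Y0 (fun j => 1 + chU k j) (fun J σ => Arr Y0 J σ A B ∧ Arr Y0 J σ A B') ≤ N.factorial := by
  set P : Finset (Fin N) := A ∩ Y0 with hPdef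
  set Q : Finset (Fin N) := (B ∪ B') ∩ Y0 with hQdef
  have hQu : Q = (B ∩ Y0) ∪ (B' ∩ Y0) := by rw [hQdef, Finset.union_inter_distrib_right]
  have hQc : Q.card = (B ∩ Y0).card + (B' ∩ Y0).card := by
    rw [hQu]
    exact Finset.card_union_of_disjoint
      (Finset.disjoint_of_subset_left inter_subset_left
        (Finset.disjoint_of_subset_right inter_subset_left hBB'))
  have hAU : Disjoint A (B ∪ B') := by
    rw [Finset.disjoint_union_right]; exact ⟨hAB, hAB'⟩
  have hPQ : Disjoint P Q :=
    Finset.disjoint_of_subset_left inter_subset_left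
      (Finset.disjoint_of_subset_right inter_subset_left hAU)
  have hQ0 : Q.Nonempty := by
    rw [hQu]; exact hB0.mono subset_union_left
  have hsplit := W_splitC2 (k := k) Y0 (fun j => 1 + chU k j)
    (fun J σ => Arr Y0 J σ A B ∧ Arr Y0 J σ A B')
    (fun J => P ⊆ J ∧ Disjoint Q J)
    (fun σ => ∀ a ∈ A \ Y0, ∀ b ∈ (B ∪ B') \ Y0, σ a < σ b) (by
      intro J hJ σ
      have hJY : J ⊆ Y0 := by
        unfold Js at hJ
        exact Finset.mem_powerset.1 (Finset.mem_filter.1 hJ).1
      have hd : Disjoint Q J ↔ Disjoint B J ∧ Disjoint B' J := by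
        rw [← Finset.disjoint_union_left]
        constructor
        · intro h
          rw [Finset.disjoint_left] at h ⊢
          intro x hx hxJ
          exact h (Finset.mem_inter.2 ⟨hx, hJY hxJ⟩) hxJ
        · intro h
          exact Finset.disjoint_of_subset_left inter_subset_left h
      unfold Arr
      rw [hd]
      constructor
      · rintro ⟨⟨h1, h2, h3⟩, -, h5, h6⟩
        refine ⟨⟨h1, h2, h5⟩, fun a ha b hb => ?_⟩
        rw [Finset.mem_sdiff, Finset.mem_union] at hb
        rcases hb with ⟨hb | hb, hb'⟩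
        · exact h3 a ha b (Finset.mem_sdiff.2 ⟨hb, hb'⟩)
        · exact h6 a ha b (Finset.mem_sdiff.2 ⟨hb, hb'⟩)
      · rintro ⟨⟨h1, h2, h5⟩, h3⟩
        refine ⟨⟨h1, h2, fun a ha b hb => h3 a ha b ?_⟩, h1, h5, fun a ha b hb => h3 a ha b ?_⟩
        · rw [Finset.mem_sdiff] at hb ⊢
          exact ⟨Finset.mem_union_left _ hb.1, hb.2⟩
        · rw [Finset.mem_sdiff] at hb ⊢
          exact ⟨Finset.mem_union_right _ hb.1, hb.2⟩)
  rw [hsplit]
  -- sizes
  have hPc : P.card ≤ k := by rw [← hY]; exact Finset.card_le_card inter_subset_right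
  have hQk : Q.card ≤ k := by rw [← hY]; exact Finset.card_le_card inter_subset_right
  have hAc : (A \ Y0).card = k - P.card := by
    have := Finset.card_sdiff_add_card_inter A Y0
    rw [← hPdef] at this
    omega
  have hUc : (B ∪ B').card = 2 * k := by
    rw [Finset.card_union_of_disjoint hBB', hB, hB']; ring
  have hBc : ((B ∪ B') \ Y0).card = 2 * k - Q.card := by
    have := Finset.card_sdiff_add_card_inter (B ∪ B') Y0
    rw [← hQdef] at this
    omega
  have hperm := perm_count (A \ Y0) ((B ∪ B') \ Y0)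
    (Finset.disjoint_of_subset_left sdiff_subset
      (Finset.disjoint_of_subset_right sdiff_subset hAU)) hAc hBc
  have hP1 : 1 ≤ P.card := hA0.card_pos
  have hB1 : 1 ≤ (B ∩ Y0).card := hB0.card_pos
  have hB1' : 1 ≤ (B' ∩ Y0).card := hB0'.card_pos
  have hgood := hG Q.card P.card m (by omega) hP1 hm (by omega)
  have hcut := cut_sum Y0 P Q hY inter_subset_right inter_subset_right hPQ hA0 hQ0
    (fun j => k.choose j * (1 + chU k j))
  have hcut' : ∑ J ∈ (Js Y0).filter (fun J => P ⊆ J ∧ Disjoint Q J),
      k.choose J.card * (1 + chU k J.card) =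
      ∑ j ∈ Icc P.card (k - Q.card),
        k.choose j * (1 + chU k j) * (k - P.card - Q.card).choose (j - P.card) := hcut
  rw [hcut']
  have e1 : (k - P.card) + (2 * k - Q.card) = 3 * k - Q.card - P.card := by omega
  rw [e1] at hperm
  rw [← hperm]
  have key : ∑ j ∈ Icc P.card (k - Q.card),
      k.choose j * (1 + chU k j) * (k - P.card - Q.card).choose (j - P.card) ≤
      ∑ j ∈ Icc Q.card (k - P.card),
        (1 + chL k j) * (k.choose j * (k - Q.card - P.card).choose (j - Q.card)) := by
    have hPQk : P.card + Q.card ≤ k := by omega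
    have hbij : ∑ j ∈ Icc P.card (k - Q.card),
        k.choose j * (1 + chU k j) * (k - P.card - Q.card).choose (j - P.card) =
        ∑ j ∈ Icc Q.card (k - P.card),
          k.choose (k - j) * (1 + chU k (k - j)) * (k - P.card - Q.card).choose (k - j - P.card) := by
      refine Finset.sum_bij' (fun j _ => k - j) (fun j _ => k - j) ?_ ?_ ?_ ?_ ?_
      · intro j hj
        rw [Finset.mem_Icc] at hj ⊢
        omega
      · intro j hj
        rw [Finset.mem_Icc] at hj ⊢
        omega
      · intro j hj
        rw [Finset.mem_Icc] at hj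
        omega
      · intro j hj
        rw [Finset.mem_Icc] at hj
        omega
      · intro j hj
        rw [Finset.mem_Icc] at hj
        have : k - (k - j) = j := by omega
        rw [this]
    rw [hbij]
    refine Finset.sum_le_sum fun j hj => ?_
    rw [Finset.mem_Icc] at hj
    have c1 : k.choose (k - j) = k.choose j := Nat.choose_symm (by omega)
    have c2 : (k - P.card - Q.card).choose (k - j - P.card) =
        (k - Q.card - P.card).choose (j - Q.card) := by
      have e2 : k - P.card - Q.card = k - Q.card - P.card := by omega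
      have e3 : k - j - P.card = (k - Q.card - P.card) - (j - Q.card) := by omega
      rw [e2, e3]
      exact Nat.choose_symm (by omega)
    have c3 : chU k (k - j) ≤ chL k j := by
      unfold chU chL
      split_ifs <;> omega
    rw [c1, c2]
    calc k.choose j * (1 + chU k (k - j)) * (k - Q.card - P.card).choose (j - Q.card)
        = (1 + chU k (k - j)) * (k.choose j * (k - Q.card - P.card).choose (j - Q.card)) := by ring
      _ ≤ _ := Nat.mul_le_mul_right _ (by omega)
  have hfin := le_trans (Nat.mul_le_mul_left m key) hgood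
  rw [← mul_assoc, mul_comm ((univ.filter _).card) _]
  exact Nat.mul_le_mul_right _ hfin

end Pool.Agent.K4H58.XK
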