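import Pool.Agent.K4H34.XKC2

open Finset

namespace Pool.Agent.K4H58.XK

/-- the exact weight of the event `U` before `V` for disjoint sets `U`, `V` that both meet `Y0` (any sizes) -/
theorem set_weight {N k u v : ℕ} (Y0 U V : Finset (Fin N)) (hY : Y0.card = k) (hU : U.card = u)
    (hV : V.card = v) (hUV : Disjoint U V) (hU0 : (U ∩ Y0).Nonempty) (hV0 : (V ∩ Y0).Nonempty)
    (f : ℕ → ℕ) (P : Finset (Fin N) → Equiv.Perm (Fin N) → Prop) [∀ J σ, Decidable (P J σ)]
    (hP : ∀ J ∈ Js Y0, ∀ σ, P J σ ↔ Arr Y0 J σ U V) :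
    W k Y0 f P * ((u - (U ∩ Y0).card) + (v - (V ∩ Y0).card)).choose (u - (U ∩ Y0).card) =
      N.factorial * ∑ j ∈ Icc (U ∩ Y0).card (k - (V ∩ Y0).card),
        f j * (k.choose j * (k - (U ∩ Y0).card - (V ∩ Y0).card).choose (j - (U ∩ Y0).card)) := by
  set p : Finset (Fin N) := U ∩ Y0 with hp
  set q : Finset (Fin N) := V ∩ Y0 with hq
  have hpq : Disjoint p q :=
    Finset.disjoint_of_subset_left inter_subset_left
      (Finset.disjoint_of_subset_right inter_subset_left hUV)
  have hsplit := W_splitC2 (k := k) Y0 f P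
    (fun J => p ⊆ J ∧ Disjoint q J)
    (fun σ => ∀ a ∈ U \ Y0, ∀ b ∈ V \ Y0, σ a < σ b) (by
      intro J hJ σ
      rw [hP J hJ σ]
      have hJY : J ⊆ Y0 := by
        unfold Js at hJ
        exact Finset.mem_powerset.1 (Finset.mem_filter.1 hJ).1
      have hd : Disjoint q J ↔ Disjoint V J := by
        constructor
        · intro h
          rw [Finset.disjoint_left] at h ⊢
          intro x hx hxJ
          exact h (Finset.mem_inter.2 ⟨hx, hJY hxJ⟩) hxJ
        · intro h
          exact Finset.disjoint_of_subset_left inter_subset_left h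
      unfold Arr
      rw [hd, and_assoc])
  rw [hsplit]
  have hUc : (U \ Y0).card = u - p.card := by
    have := Finset.card_sdiff_add_card_inter U Y0
    rw [← hp] at this
    omega
  have hVc : (V \ Y0).card = v - q.card := by
    have := Finset.card_sdiff_add_card_inter V Y0
    rw [← hq] at this
    omega
  have hperm := perm_count (U \ Y0) (V \ Y0)
    (Finset.disjoint_of_subset_left sdiff_subset
      (Finset.disjoint_of_subset_right sdiff_subset hUV)) hUc hVc
  have hcut : ∑ J ∈ (Js Y0).filter (fun J => p ⊆ J ∧ Disjoint q J), k.choose J.card * f J.card =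
      ∑ j ∈ Icc p.card (k - q.card), k.choose j * f j * (k - p.card - q.card).choose (j - p.card) :=
    cut_sum Y0 p q hY inter_subset_right inter_subset_right hpq hU0 hV0 (fun j => k.choose j * f j)
  rw [hcut, ← hperm]
  have e : ∑ j ∈ Icc p.card (k - q.card), k.choose j * f j * (k - p.card - q.card).choose (j - p.card) =
      ∑ j ∈ Icc p.card (k - q.card), f j * (k.choose j * (k - p.card - q.card).choose (j - p.card)) :=
    Finset.sum_congr rfl fun j _ => by ring
  rw [e]
  ring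

/-- the exact weight of a lower cherry `A, A' → B` for a general weight function `f` -/
theorem cherry_weight {N k : ℕ} (f : ℕ → ℕ) (Y0 A A' B : Finset (Fin N)) (hY : Y0.card = k)
    (hA : A.card = k) (hA' : A'.card = k) (hB : B.card = k) (hAA' : Disjoint A A') (hAB : Disjoint A B)
    (hAB' : Disjoint A' B) (hA0 : (A ∩ Y0).Nonempty) (hB0 : (B ∩ Y0).Nonempty) :
    W k Y0 f (fun J σ => Arr Y0 J σ A B ∧ Arr Y0 J σ A' B) *
        (3 * k - ((A ∪ A') ∩ Y0).card - (B ∩ Y0).card).choose (k - (B ∩ Y0).card) =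
      N.factorial * ∑ j ∈ Icc ((A ∪ A') ∩ Y0).card (k - (B ∩ Y0).card),
        f j * (k.choose j * (k - ((A ∪ A') ∩ Y0).card - (B ∩ Y0).card).choose
          (j - ((A ∪ A') ∩ Y0).card)) := by
  have hUV : Disjoint (A ∪ A') B := by rw [Finset.disjoint_union_left]; exact ⟨hAB, hAB'⟩
  have hUc : (A ∪ A').card = 2 * k := by
    rw [Finset.card_union_of_disjoint hAA', hA, hA']; ring
  have hU0 : ((A ∪ A') ∩ Y0).Nonempty := by
    rw [Finset.union_inter_distrib_right]; exact hA0.mono subset_union_left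
  have h := set_weight (k := k) Y0 (A ∪ A') B hY hUc hB hUV hU0 hB0 f
    (fun J σ => Arr Y0 J σ A B ∧ Arr Y0 J σ A' B) (by
      intro J hJ σ
      unfold Arr
      have hs : (A ∪ A') ∩ Y0 ⊆ J ↔ A ∩ Y0 ⊆ J ∧ A' ∩ Y0 ⊆ J := by
        rw [Finset.union_inter_distrib_right, Finset.union_subset_iff]
      rw [hs]
      constructor
      · rintro ⟨⟨h1, h2, h3⟩, h4, h5, h6⟩
        refine ⟨⟨h1, h4⟩, h2, fun a ha b hb => ?_⟩
        rw [Finset.mem_sdiff, Finset.mem_union] at ha
        rcases ha with ⟨ha | ha, ha'⟩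
        · exact h3 a (Finset.mem_sdiff.2 ⟨ha, ha'⟩) b hb
        · exact h6 a (Finset.mem_sdiff.2 ⟨ha, ha'⟩) b hb
      · rintro ⟨⟨h1, h4⟩, h2, h3⟩
        refine ⟨⟨h1, h2, fun a ha b hb => h3 a ?_ b hb⟩, h4, h2, fun a ha b hb => h3 a ?_ b hb⟩
        · rw [Finset.mem_sdiff] at ha ⊢
          exact ⟨Finset.mem_union_left _ ha.1, ha.2⟩
        · rw [Finset.mem_sdiff] at ha ⊢
          exact ⟨Finset.mem_union_right _ ha.1, ha.2⟩)
  have hPk : ((A ∪ A') ∩ Y0).card ≤ k := by rw [← hY]; exact Finset.card_le_card inter_subset_right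
  have hQk : (B ∩ Y0).card ≤ k := by rw [← hY]; exact Finset.card_le_card inter_subset_right
  have e1 : (2 * k - ((A ∪ A') ∩ Y0).card) + (k - (B ∩ Y0).card) =
      3 * k - ((A ∪ A') ∩ Y0).card - (B ∩ Y0).card := by omega
  have e2 : (3 * k - ((A ∪ A') ∩ Y0).card - (B ∩ Y0).card).choose (2 * k - ((A ∪ A') ∩ Y0).card) =
      (3 * k - ((A ∪ A') ∩ Y0).card - (B ∩ Y0).card).choose (k - (B ∩ Y0).card) := by
    rw [← Nat.choose_symm (by omega)]
    congr 1
    omega
  rw [e1, e2] at h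
  exact h

/-- the exact weight of an upper cherry `A → B, B'` for a general weight function `f` -/
theorem cherry_weight' {N k : ℕ} (f : ℕ → ℕ) (Y0 A B B' : Finset (Fin N)) (hY : Y0.card = k)
    (hA : A.card = k) (hB : B.card = k) (hB' : B'.card = k) (hBB' : Disjoint B B') (hAB : Disjoint A B)
    (hAB' : Disjoint A B') (hA0 : (A ∩ Y0).Nonempty) (hB0 : (B ∩ Y0).Nonempty) :
    W k Y0 f (fun J σ => Arr Y0 J σ A B ∧ Arr Y0 J σ A B') *
        (3 * k - (A ∩ Y0).card - ((B ∪ B') ∩ Y0).card).choose (k - (A ∩ Y0).card) =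
      N.factorial * ∑ j ∈ Icc (A ∩ Y0).card (k - ((B ∪ B') ∩ Y0).card),
        f j * (k.choose j * (k - (A ∩ Y0).card - ((B ∪ B') ∩ Y0).card).choose
          (j - (A ∩ Y0).card)) := by
  have hUV : Disjoint A (B ∪ B') := by rw [Finset.disjoint_union_right]; exact ⟨hAB, hAB'⟩
  have hVc : (B ∪ B').card = 2 * k := by
    rw [Finset.card_union_of_disjoint hBB', hB, hB']; ring
  have hV0 : ((B ∪ B') ∩ Y0).Nonempty := by
    rw [Finset.union_inter_distrib_right]; exact hB0.mono subset_union_left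
  have h := set_weight (k := k) Y0 A (B ∪ B') hY hA hVc hUV hA0 hV0 f
    (fun J σ => Arr Y0 J σ A B ∧ Arr Y0 J σ A B') (by
      intro J hJ σ
      unfold Arr
      rw [Finset.disjoint_union_left]
      constructor
      · rintro ⟨⟨h1, h2, h3⟩, -, h5, h6⟩
        refine ⟨h1, ⟨h2, h5⟩, fun a ha b hb => ?_⟩
        rw [Finset.mem_sdiff, Finset.mem_union] at hb
        rcases hb with ⟨hb | hb, hb'⟩
        · exact h3 a ha b (Finset.mem_sdiff.2 ⟨hb, hb'⟩)
        · exact h6 a ha b (Finset.mem_sdiff.2 ⟨hb, hb'⟩)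
      · rintro ⟨h1, ⟨h2, h5⟩, h3⟩
        refine ⟨⟨h1, h2, fun a ha b hb => h3 a ha b ?_⟩, h1, h5, fun a ha b hb => h3 a ha b ?_⟩
        · rw [Finset.mem_sdiff] at hb ⊢
          exact ⟨Finset.mem_union_left _ hb.1, hb.2⟩
        · rw [Finset.mem_sdiff] at hb ⊢
          exact ⟨Finset.mem_union_right _ hb.1, hb.2⟩)
  have hPk : (A ∩ Y0).card ≤ k := by rw [← hY]; exact Finset.card_le_card inter_subset_right
  have hQk : ((B ∪ B') ∩ Y0).card ≤ k := by rw [← hY]; exact Finset.card_le_card inter_subset_right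
  have e1 : (k - (A ∩ Y0).card) + (2 * k - ((B ∪ B') ∩ Y0).card) =
      3 * k - (A ∩ Y0).card - ((B ∪ B') ∩ Y0).card := by omega
  rw [e1] at h
  exact h

end Pool.Agent.K4H58.XK
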